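import Pool.Agent.Lib_helper4.PluriG.Main
import Pool.Agent.Lib_helper84.PLH.S4T

/-! # Functions which are pluriharmonic in each of several groups: the weighted form

The Fourier weight on a set of variables is divided by `4096` for every group which it meets
besides one.
-/

set_option autoImplicit false

namespace Pool.Agent.Lib_helper31.GPL

open Finset Pool.Agent.Lib_helper30.AA Pool.Agent.Lib_helper14.AAQ Pool.Agent.Lib_helper4.PluriG

variable {n m : ℕ}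

/-- A factor `1 / 64` for every group of the monomial besides one. -/
noncomputable def damp (g : Fin n → Fin m) (c : (Fin m → Bool) → Finset (Fin n) → ℂ) :
    (Fin m → Bool) → Finset (Fin n) → ℂ :=
  fun u S => (1/64 : ℂ) ^ ((S.image g).card - 1) * c u S

lemma image_disjSum (g : Fin n → Fin m) {t S : Finset (Fin n)} (ht : t ⊆ S) :
    (t.disjSum (S \ t)).image (Sum.elim g g) = S.image g := by
  ext a
  simp only [Finset.mem_image, Sum.exists, Sum.elim_inl, Sum.elim_inr, Finset.inl_mem_disjSum,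
    Finset.inr_mem_disjSum]
  constructor
  · rintro (⟨j, hj, h⟩ | ⟨j, hj, h⟩)
    · exact ⟨j, ht hj, h⟩
    · exact ⟨j, (Finset.mem_sdiff.mp hj).1, h⟩
  · rintro ⟨j, hj, h⟩
    by_cases hjt : j ∈ t
    · exact Or.inl ⟨j, hjt, h⟩
    · exact Or.inr ⟨j, Finset.mem_sdiff.mpr ⟨hj, hjt⟩, h⟩

lemma re_pow_mul (k : ℕ) (z : ℂ) : ((1/64 : ℂ) ^ k * z).re = (1/64 : ℝ) ^ k * z.re := by
  have h : ((1/64 : ℂ)) ^ k = (((1/64 : ℝ) ^ k : ℝ) : ℂ) := by push_cast; rfl
  rw [h, Complex.re_ofReal_mul]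

lemma conj_pow_mul (k : ℕ) (z : ℂ) :
    starRingEnd ℂ ((1/64 : ℂ) ^ k * z) = (1/64 : ℂ) ^ k * starRingEnd ℂ z := by
  have h : ((1/64 : ℂ)) ^ k = (((1/64 : ℝ) ^ k : ℝ) : ℂ) := by push_cast; rfl
  rw [h, map_mul, Complex.conj_ofReal]

/-- The Fourier coefficients of the damped function. -/
lemma coef_damp (g : Fin n → Fin m) (c : (Fin m → Bool) → Finset (Fin n) → ℂ)
    (W : Finset (Fin n ⊕ Fin n)) :
    coef (F g (damp g c)) W =
      (1/64 : ℝ) ^ ((W.image (Sum.elim g g)).card - 1) * coef (F g c) W := by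
  rw [coef_F, coef_F, Finset.mul_sum]
  refine Finset.sum_congr rfl fun u _ => ?_
  rw [Finset.mul_sum]
  refine Finset.sum_congr rfl fun S _ => ?_
  rw [Finset.mul_sum]
  refine Finset.sum_congr rfl fun t ht => ?_
  by_cases h : t.disjSum (S \ t) = W
  · rw [if_pos h, mul_one, mul_one, ← h, image_disjSum g (Finset.mem_powerset.mp ht)]
    unfold damp
    rw [mul_assoc, re_pow_mul]
  · rw [if_neg h, mul_zero, mul_zero, mul_zero]

/-- The derivatives of the damped function. -/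
lemma dj_damp (g : Fin n → Fin m) (c : (Fin m → Bool) → Finset (Fin n) → ℂ) (j : Fin n) :
    dj g (damp g c) j =
      fun u T => (1/64 : ℂ) ^ ((T.image g).erase (g j)).card * dj g c j u T := by
  funext u T
  unfold dj
  by_cases h : j ∈ T ∨ u (g j) = true
  · rw [if_pos h, if_pos h, mul_zero]
  · rw [if_neg h, if_neg h]
    have h1 : ((insert j T).image g).card - 1 = ((T.image g).erase (g j)).card := by
      have h6 : (T.image g).erase (g j) = ((insert j T).image g).erase (g j) := by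
        rw [Finset.image_insert, Finset.erase_insert_eq_erase]
      rw [h6, Finset.card_erase_of_mem (Finset.mem_image_of_mem g (Finset.mem_insert_self _ _))]
    unfold damp
    rw [h1, conj_pow_mul, mul_add]

/-- The influence of the pair `j` in the damped function and in the function. -/
lemma th_damp_le {g : Fin n → Fin m} {c : (Fin m → Bool) → Finset (Fin n) → ℂ}
    (hf : ∀ v, |F g c v| ≤ 1) (j : Fin n) :
    th g (damp g c) j ^ 37 ≤
      (((2 : ℝ) ^ (2 * n))⁻¹ * ∑ v, ‖HH g (dj g c j) v‖) ^ 20 * th g c j ^ 18 := by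
  have h := Pool.Agent.PLH.T.s4t g (g j) (dj g c j) ?_ ?_
  · unfold Pool.Agent.PLH.Av at h
    rw [card_w] at h
    have e1 : ∑ w, ‖Hw g (dj g c j) w‖ ^ 2 = ∑ v, ‖HH g (dj g c j) v‖ ^ 2 :=
      Fintype.sum_equiv (prs n) _ _ fun w => by rw [Hw_eq]
    have e2 : ∑ w, ‖Hw g (dj g c j) w‖ = ∑ v, ‖HH g (dj g c j) v‖ :=
      Fintype.sum_equiv (prs n) _ _ fun w => by rw [Hw_eq]
    have e3 : ∑ w, ‖Hw g (fun u T => (1/64 : ℂ) ^ ((T.image g).erase (g j)).card *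
        dj g c j u T) w‖ ^ 2 = ∑ v, ‖HH g (dj g (damp g c) j) v‖ ^ 2 := by
      rw [dj_damp]
      exact Fintype.sum_equiv (prs n) _ _ fun w => by rw [Hw_eq]
    unfold Hw at e1 e2 e3
    rw [e1, e2, e3] at h
    exact h
  · intro u S hS _
    by_contra h
    rw [Bool.not_eq_false] at h
    simp [dj, h] at hS
  · intro w
    have h := Hw_eq g (dj g c j) w
    unfold Hw at h
    rw [h]
    exact norm_le_one hf j _

/-- The influences as sums of squares of Fourier coefficients. -/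
lemma th_eq_coef (g : Fin n → Fin m) (c : (Fin m → Bool) → Finset (Fin n) → ℂ) (J : Finset (Fin n)) :
    ∑ j ∈ J, th g c j = ∑ k ∈ J.disjSum J,
      ∑ W ∈ (univ : Finset (Finset (Fin n ⊕ Fin n))).filter (fun W => k ∈ W),
        coef (F g c) W ^ 2 := by
  have hc : ∀ k, ((2 : ℝ) ^ (2 * n))⁻¹ * ∑ v, Pool.Agent.Lib_helper4.Pluri.hd (F g c) k v ^ 2 =
      ∑ W ∈ (univ : Finset (Finset (Fin n ⊕ Fin n))).filter (fun W => k ∈ W),
        coef (F g c) W ^ 2 := by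
    intro k
    rw [← influence_eq, Pool.Agent.Lib_helper4.Pluri.two_pow_card]
    rfl
  rw [Finset.sum_disjSum, ← Finset.sum_add_distrib]
  refine Finset.sum_congr rfl fun j _ => ?_
  rw [← hc, ← hc, hd_sum]

/-- The sum of the influences in `J` is at most the degree in the variables of `J`. -/
lemma sum_th_le {g : Fin n → Fin m} {c : (Fin m → Bool) → Finset (Fin n) → ℂ}
    (hf : ∀ v, |F g c v| ≤ 1) {J : Finset (Fin n)} {d : ℕ}
    (hdeg : ∀ W, coef (F g c) W ≠ 0 → (W ∩ J.disjSum J).card ≤ d) :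
    ∑ j ∈ J, th g c j ≤ d := by
  rw [th_eq_coef]
  simp_rw [Finset.sum_filter]
  rw [Finset.sum_comm]
  have h1 : ∀ W : Finset (Fin n ⊕ Fin n),
      ∑ k ∈ J.disjSum J, (if k ∈ W then coef (F g c) W ^ 2 else 0) ≤
        (d : ℝ) * coef (F g c) W ^ 2 := by
    intro W
    rw [← Finset.sum_filter, Finset.sum_const, nsmul_eq_mul]
    by_cases h : coef (F g c) W = 0
    · rw [h]; simp
    · refine mul_le_mul_of_nonneg_right ?_ (sq_nonneg _)
      have h2 : (J.disjSum J).filter (fun k => k ∈ W) = W ∩ J.disjSum J := by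
        ext k; simp [and_comm]
      rw [h2]
      exact_mod_cast hdeg W h
  refine (Finset.sum_le_sum fun W _ => h1 W).trans ?_
  rw [← Finset.mul_sum, parseval_sq]
  have h3 : ((2 : ℝ) ^ (Fintype.card (Fin n ⊕ Fin n)))⁻¹ * ∑ x, F g c x ^ 2 ≤ 1 := by
    rw [inv_mul_le_iff₀ (by positivity), mul_one]
    refine (Finset.sum_le_sum fun x _ => (sq_le_one_iff_abs_le_one _).mpr (hf x)).trans
      (le_of_eq ?_)
    simp
  calc (d : ℝ) * (((2 : ℝ) ^ (Fintype.card (Fin n ⊕ Fin n)))⁻¹ * ∑ x, F g c x ^ 2)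
      ≤ (d : ℝ) * 1 := mul_le_mul_of_nonneg_left h3 (Nat.cast_nonneg _)
    _ = d := mul_one _

/-- The sum of the first moments of the derivatives. -/
lemma sum_one_le {g : Fin n → Fin m} {c : (Fin m → Bool) → Finset (Fin n) → ℂ}
    (hf : ∀ v, |F g c v| ≤ 1) {J : Finset (Fin n)} {d : ℕ}
    (hdeg : ∀ W, coef (F g c) W ≠ 0 → (W ∩ J.disjSum J).card ≤ d) :
    ∑ j ∈ J, (((2 : ℝ) ^ (2 * n))⁻¹ * ∑ v, ‖HH g (dj g c j) v‖) ≤ 2 * (d : ℝ) ^ 2 := by
  rw [← Finset.mul_sum, Finset.sum_comm]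
  have h2 : ∀ v : Fin n ⊕ Fin n → Bool, ∑ j ∈ J, ‖HH g (dj g c j) v‖ ≤ 2 * (d : ℝ) ^ 2 := by
    intro v
    have h3 := Pool.Agent.Lib_helper4.Pluri.sum_abs_hd_le hf (K := J.disjSum J) (d := d)
      (fun W hW => hdeg W hW) v
    rw [Finset.sum_disjSum, ← Finset.sum_add_distrib] at h3
    exact le_trans (Finset.sum_le_sum fun j _ => norm_le_hd g c j _) h3
  have h5 : ∑ v : Fin n ⊕ Fin n → Bool, ∑ j ∈ J, ‖HH g (dj g c j) v‖ ≤
      2 ^ (2 * n) * (2 * (d : ℝ) ^ 2) := by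
    refine (Finset.sum_le_sum fun v _ => h2 v).trans (le_of_eq ?_)
    rw [Finset.sum_const, Finset.card_univ, nsmul_eq_mul]
    congr 1
    simp only [Fintype.card_fun, Fintype.card_bool, Fintype.card_sum, Fintype.card_fin]
    push_cast
    rw [two_mul]
  rw [inv_mul_le_iff₀ (by positivity)]
  exact h5

/-- The scalar sum: Hoelder with the exponents `37/20` and `37/17`. -/
theorem hold37 {ι : Type*} {J : Finset ι} (hJ : J.Nonempty) (w b t : ι → ℝ)
    (hw : ∀ j, 0 ≤ w j) (hb : ∀ j, 0 ≤ b j) (ht : ∀ j, 0 ≤ t j)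
    (h : ∀ j ∈ J, w j ^ 37 ≤ b j ^ 20 * t j ^ 18) {B D : ℝ}
    (hB : ∑ j ∈ J, b j ≤ B) (hD : ∑ j ∈ J, t j ≤ D) :
    ∃ j ∈ J, (∑ j ∈ J, w j) ^ 37 ≤ B ^ 20 * D ^ 17 * t j := by
  obtain ⟨j, hj, hmax⟩ := J.exists_max_image t hJ
  refine ⟨j, hj, ?_⟩
  set M := t j with hM
  have hM0 : 0 ≤ M := ht j
  have hB0 : 0 ≤ ∑ j ∈ J, b j := Finset.sum_nonneg fun i _ => hb i
  have hD0 : 0 ≤ ∑ j ∈ J, t j := Finset.sum_nonneg fun i _ => ht i
  have pw : ∀ {a x y : ℝ}, 0 ≤ a → 0 ≤ x → 0 ≤ y →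
      (a ^ (1/37 : ℝ) * (x ^ (20/37 : ℝ) * y ^ (17/37 : ℝ))) ^ 37 = a * (x ^ 20 * y ^ 17) := by
    intro a x y ha hx hy
    rw [mul_pow, mul_pow, ← Real.rpow_natCast, ← Real.rpow_natCast, ← Real.rpow_natCast,
      ← Real.rpow_mul ha, ← Real.rpow_mul hx, ← Real.rpow_mul hy]
    rw [show (1/37 * ((37:ℕ):ℝ) : ℝ) = ((1:ℕ):ℝ) by norm_num,
      show (20/37 * ((37:ℕ):ℝ) : ℝ) = ((20:ℕ):ℝ) by norm_num,
      show (17/37 * ((37:ℕ):ℝ) : ℝ) = ((17:ℕ):ℝ) by norm_num, Real.rpow_natCast,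
      Real.rpow_natCast, Real.rpow_natCast, pow_one]
  -- the terms
  have h1 : ∀ i ∈ J, w i ≤ M ^ (1/37 : ℝ) * (b i ^ (20/37 : ℝ) * t i ^ (17/37 : ℝ)) := by
    intro i hi
    have e1 : w i ^ 37 ≤ (M ^ (1/37 : ℝ) * (b i ^ (20/37 : ℝ) * t i ^ (17/37 : ℝ))) ^ 37 := by
      rw [pw hM0 (hb i) (ht i)]
      refine (h i hi).trans ?_
      calc b i ^ 20 * t i ^ 18 = b i ^ 20 * t i ^ 17 * t i := by ring
        _ ≤ b i ^ 20 * t i ^ 17 * M :=
            mul_le_mul_of_nonneg_left (hmax i hi)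
              (mul_nonneg (pow_nonneg (hb i) _) (pow_nonneg (ht i) _))
        _ = M * (b i ^ 20 * t i ^ 17) := by ring
    exact le_of_pow_le_pow_left₀ (by norm_num)
      (mul_nonneg (Real.rpow_nonneg hM0 _)
        (mul_nonneg (Real.rpow_nonneg (hb i) _) (Real.rpow_nonneg (ht i) _))) e1
  have h2 : ∑ i ∈ J, w i ≤ M ^ (1/37 : ℝ) * (B ^ (20/37 : ℝ) * D ^ (17/37 : ℝ)) := by
    refine (Finset.sum_le_sum h1).trans ?_
    rw [← Finset.mul_sum]
    refine mul_le_mul_of_nonneg_left ?_ (Real.rpow_nonneg hM0 _)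
    have hpq : Real.HolderConjugate (37/20) (37/17) := by
      rw [Real.holderConjugate_iff]; norm_num
    have h3 := Real.inner_le_Lp_mul_Lq_of_nonneg J hpq
      (f := fun k => (b k) ^ (20/37 : ℝ)) (g := fun k => (t k) ^ (17/37 : ℝ))
      (fun k _ => Real.rpow_nonneg (hb k) _) (fun k _ => Real.rpow_nonneg (ht k) _)
    have e1 : ∀ k, ((b k) ^ (20/37 : ℝ)) ^ (37/20 : ℝ) = b k := by
      intro k; rw [← Real.rpow_mul (hb k)]; norm_num
    have e2 : ∀ k, ((t k) ^ (17/37 : ℝ)) ^ (37/17 : ℝ) = t k := by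
      intro k; rw [← Real.rpow_mul (ht k)]; norm_num
    simp only [e1, e2] at h3
    have e3 : (1 / (37/20 : ℝ)) = 20/37 := by norm_num
    have e4 : (1 / (37/17 : ℝ)) = 17/37 := by norm_num
    rw [e3, e4] at h3
    refine h3.trans ?_
    exact mul_le_mul (Real.rpow_le_rpow hB0 hB (by norm_num))
      (Real.rpow_le_rpow hD0 hD (by norm_num)) (Real.rpow_nonneg hD0 _)
      (Real.rpow_nonneg (hB0.trans hB) _)
  have h4 := pow_le_pow_left₀ (Finset.sum_nonneg fun i _ => hw i) h2 37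
  rw [pw hM0 (hB0.trans hB) (hD0.trans hD)] at h4
  refine h4.trans (le_of_eq ?_)
  ring

/-- **The final form.** -/
theorem fin (n m : ℕ) (g : Fin n → Fin m) (c : (Fin m → Bool) → Finset (Fin n) → ℂ)
    (f : (Fin n ⊕ Fin n → Bool) → ℝ)
    (hf : ∀ v, f v = (∑ u, ∑ S, c u S * ∏ i ∈ S, ((-1) ^ (v (Sum.inl i)).toNat +
      (-1) ^ (u (g i)).toNat * (-1) ^ (v (Sum.inr i)).toNat * Complex.I)).re)
    (hbd : ∀ v, |f v| ≤ 1) (fh : Finset (Fin n ⊕ Fin n) → ℝ)
    (hfh : ∀ W, fh W = ((2 : ℝ) ^ (2 * n))⁻¹ * ∑ v, f v * ∏ k ∈ W, (-1 : ℝ) ^ (v k).toNat)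
    (J : Finset (Fin n)) (hJ : J.Nonempty) (d : ℕ)
    (hdeg : ∀ W, fh W ≠ 0 → (W ∩ J.disjSum J).card ≤ d)
    (Inf : Fin n ⊕ Fin n → ℝ)
    (hInf : ∀ k, Inf k = ((2 : ℝ) ^ (2 * n))⁻¹ * ∑ v, ((f v - f (Function.update v k (!v k))) / 2) ^ 2)
    (T : ℝ)
    (hT : T = ∑ W with (W ∩ J.disjSum J).Nonempty,
      fh W ^ 2 / 4096 ^ ((W.image (Sum.elim g g)).card - 1)) :
    ∃ j ∈ J, T ^ 37 ≤ 2 ^ 20 * (d : ℝ) ^ 57 * (Inf (Sum.inl j) + Inf (Sum.inr j)) := by
  have hF : f = F g c := by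
    funext v
    rw [hf]
    unfold F HH
    congr 1
    refine Finset.sum_congr rfl fun u _ => Finset.sum_congr rfl fun S _ => ?_
    congr 1
    refine Finset.prod_congr rfl fun i _ => ?_
    unfold pt e
    push_cast
    rfl
  subst hF
  have hcoef : ∀ W : Finset (Fin n ⊕ Fin n), fh W = coef (F g c) W := fun W => by
    rw [hfh]
    unfold coef chi
    rw [Pool.Agent.Lib_helper4.Pluri.two_pow_card]
  have hdeg' : ∀ W, coef (F g c) W ≠ 0 → (W ∩ J.disjSum J).card ≤ d := fun W hW =>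
    hdeg W (by rw [hcoef]; exact hW)
  have hth : ∀ j, Inf (Sum.inl j) + Inf (Sum.inr j) = th g c j := fun j => by
    rw [← hd_sum, hInf, hInf]
    rfl
  have hTle : T ≤ ∑ j ∈ J, th g (damp g c) j := by
    have h1 : T = ∑ W ∈ (univ : Finset (Finset (Fin n ⊕ Fin n))).filter
        (fun W => (W ∩ J.disjSum J).Nonempty), coef (F g (damp g c)) W ^ 2 := by
      rw [hT]
      refine Finset.sum_congr rfl fun W _ => ?_
      rw [coef_damp, hcoef, mul_pow, ← pow_mul, mul_comm _ 2, pow_mul, div_eq_inv_mul, ← inv_pow]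
      norm_num
    rw [h1, th_eq_coef]
    exact Pool.Agent.Lib_helper4.Pluri.weight_le_inf _ _
  have hT0 : 0 ≤ T := by
    rw [hT]
    exact Finset.sum_nonneg fun W _ => by positivity
  obtain ⟨j, hj, h⟩ := hold37 hJ (th g (damp g c))
    (fun j => ((2 : ℝ) ^ (2 * n))⁻¹ * ∑ v, ‖HH g (dj g c j) v‖) (th g c)
    (fun j => th_nonneg _ _ j) (fun j => by positivity) (fun j => th_nonneg _ _ j)
    (fun j _ => th_damp_le hbd j) (sum_one_le hbd hdeg') (sum_th_le hbd hdeg')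
  refine ⟨j, hj, ?_⟩
  rw [hth]
  refine (pow_le_pow_left₀ hT0 hTle 37).trans (h.trans (le_of_eq ?_))
  ring

end Pool.Agent.Lib_helper31.GPL
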