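import Mathlib

/-!
A nonnegative function of few bits is at most `2 ^ (number of bits)` times its mean.
-/

namespace Pool.Agent.Lib_helper31.GPL

theorem junta_le {M : Type*} [Fintype M] [DecidableEq M] (D : Finset M) (u : (M → Bool) → ℝ)
    (hu : ∀ e, 0 ≤ u e) (hD : ∀ e e', (∀ i ∈ D, e i = e' i) → u e = u e') (e : M → Bool) :
    u e ≤ 2 ^ D.card * ((Fintype.card (M → Bool) : ℝ)⁻¹ * ∑ e', u e') := by
  set P : Finset (M → Bool) := Fintype.piFinset (fun i => if i ∈ D then {e i} else Finset.univ)
    with hP
  have hcard : P.card * 2 ^ D.card = 2 ^ Fintype.card M := by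
    rw [hP, Fintype.card_piFinset]
    have e1 : ∀ i, (if i ∈ D then ({e i} : Finset Bool) else Finset.univ).card =
        if i ∈ D then 1 else 2 := by
      intro i; split_ifs <;> simp
    simp only [e1]
    rw [Finset.prod_ite, Finset.prod_const_one, one_mul, Finset.prod_const, ← pow_add]
    congr 1
    have : (Finset.univ.filter (fun i => i ∉ D)) = Dᶜ := by ext i; simp
    rw [this, Finset.card_compl, Nat.sub_add_cancel (Finset.card_le_univ D)]
  have hsum : (P.card : ℝ) * u e ≤ ∑ e', u e' := by
    calc (P.card : ℝ) * u e = ∑ e' ∈ P, u e := by rw [Finset.sum_const, nsmul_eq_mul]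
      _ = ∑ e' ∈ P, u e' := by
          apply Finset.sum_congr rfl
          intro e' he'
          apply hD
          intro i hi
          have := Fintype.mem_piFinset.mp he' i
          rw [if_pos hi, Finset.mem_singleton] at this
          exact this.symm
      _ ≤ ∑ e', u e' := Finset.sum_le_sum_of_subset_of_nonneg (Finset.subset_univ _)
          (fun e' _ _ => hu e')
  have hc : (Fintype.card (M → Bool) : ℝ) = (P.card : ℝ) * 2 ^ D.card := by
    rw [Fintype.card_fun, Fintype.card_bool, ← hcard]; push_cast; ring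
  have hpos : 0 < (Fintype.card (M → Bool) : ℝ) := by exact_mod_cast Fintype.card_pos
  have hD0 : (0 : ℝ) < 2 ^ D.card := by positivity
  have : (2 : ℝ) ^ D.card * ((Fintype.card (M → Bool) : ℝ)⁻¹ * ∑ e', u e') =
      (2 ^ D.card * ∑ e', u e') / Fintype.card (M → Bool) := by
    field_simp
  rw [this, le_div_iff₀ hpos, hc]
  nlinarith [mul_le_mul_of_nonneg_left hsum hD0.le]

end Pool.Agent.Lib_helper31.GPL
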