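import Pool.Agent.Lib_helper8.QAATree

/-! # Approximation by decision trees from pairs of influential variables -/

set_option autoImplicit false

namespace Pool.Agent.Lib_helper31.GPL

open Finset Pool.Agent.Lib_helper8.QAA

variable {I : Type} [Fintype I] [DecidableEq I]

lemma ex_chi (S : Finset I) : ex (chi S) = if S = ∅ then 1 else 0 := by
  split_ifs with h
  · subst h
    have : chi (∅ : Finset I) = fun _ => 1 := by
      funext x
      simp [chi]
    rw [this, ex_const]
  · obtain ⟨j, hj⟩ := Finset.nonempty_iff_ne_empty.mpr h
    have h1 := ex_flip (chi S) j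
    have h2 : (fun x => chi S (flip j x)) = fun x => (-1) * chi S x := by
      funext x
      rw [chi_flip_of_mem hj]
      ring
    rw [h2, ex_const_mul] at h1
    linarith

/-- Averages of a function of some of the variables. -/
lemma ex_comp {K : Type} [Fintype K] [DecidableEq K] {s : K → I} (hs : Function.Injective s)
    (φ : (K → Bool) → ℝ) : ex (fun x : I → Bool => φ (fun k => x (s k))) = ex φ := by
  have h1 : (fun x : I → Bool => φ (fun k => x (s k))) =
      fun x => ∑ S : Finset K, coef φ S * chi (S.map ⟨s, hs⟩) x := by
    funext x
    rw [inversion φ]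
    refine Finset.sum_congr rfl fun S _ => ?_
    congr 1
    unfold chi
    rw [Finset.prod_map]
    rfl
  rw [h1, ex_sum]
  simp_rw [ex_const_mul, ex_chi, Finset.map_eq_empty]
  simp only [mul_ite, mul_one, mul_zero, Finset.sum_ite_eq', Finset.mem_univ, if_true]
  exact coef_empty φ

/-- The influence. -/
noncomputable def inf (h : (I → Bool) → ℝ) (i : I) : ℝ :=
  ex (fun x => ((h x - h (flip i x)) / 2) ^ 2)

lemma inf_nonneg (h : (I → Bool) → ℝ) (i : I) : 0 ≤ inf h i :=
  ex_nonneg fun _ => sq_nonneg _

/-- The total influence. -/
noncomputable def TI (h : (I → Bool) → ℝ) : ℝ := ∑ i, inf h i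

lemma TI_nonneg (h : (I → Bool) → ℝ) : 0 ≤ TI h := Finset.sum_nonneg fun i _ => inf_nonneg h i

lemma update_flip_self (b : Bool) (i : I) (x : I → Bool) :
    Function.update (flip i x) i b = Function.update x i b := by
  simp [Pool.Agent.Lib_helper8.QAA.flip]

lemma update_flip_ne (b : Bool) {i k : I} (hk : k ≠ i) (x : I → Bool) :
    Function.update (flip k x) i b = flip k (Function.update x i b) := by
  unfold Pool.Agent.Lib_helper8.QAA.flip
  rw [Function.update_comm hk, Function.update_of_ne hk]

lemma inf_update_self (h : (I → Bool) → ℝ) (i : I) (b : Bool) :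
    inf (fun x => h (Function.update x i b)) i = 0 := by
  unfold inf
  have : (fun x : I → Bool => ((h (Function.update x i b) -
      h (Function.update (flip i x) i b)) / 2) ^ 2) = fun _ => 0 := by
    funext x
    rw [update_flip_self]
    simp
  rw [this, ex_const]

lemma inf_update_ne (h : (I → Bool) → ℝ) {i k : I} (hk : k ≠ i) :
    (inf (fun x => h (Function.update x i false)) k +
      inf (fun x => h (Function.update x i true)) k) / 2 = inf h k := by
  unfold inf
  rw [← ex_ite (i := i)
    (F := fun x => ((h (Function.update x i false) - h (Function.update (flip k x) i false)) / 2) ^ 2)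
    (G := fun x => ((h (Function.update x i true) - h (Function.update (flip k x) i true)) / 2) ^ 2)
    (fun x => by rw [flip_comm k i, update_flip_self, update_flip_self])
    (fun x => by rw [flip_comm k i, update_flip_self, update_flip_self])]
  congr 1
  funext x
  rw [update_flip_ne _ hk, update_flip_ne _ hk]
  cases hx : x i with
  | true => rw [← hx, Function.update_eq_self]; simp [hx]
  | false => rw [← hx, Function.update_eq_self]; simp [hx]

/-- A query lowers the total influence on average by the influence. -/
lemma TI_update (h : (I → Bool) → ℝ) (i : I) :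
    (TI (fun x => h (Function.update x i false)) +
      TI (fun x => h (Function.update x i true))) / 2 = TI h - inf h i := by
  unfold TI
  rw [← Finset.add_sum_erase _ (fun k => inf h k) (Finset.mem_univ i),
    ← Finset.add_sum_erase _ (fun k => inf (fun x => h (Function.update x i false)) k)
      (Finset.mem_univ i),
    ← Finset.add_sum_erase _ (fun k => inf (fun x => h (Function.update x i true)) k)
      (Finset.mem_univ i), inf_update_self, inf_update_self]
  have h1 : ∑ k ∈ univ.erase i, inf h k =
      ∑ k ∈ univ.erase i, (inf (fun x => h (Function.update x i false)) k +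
      inf (fun x => h (Function.update x i true)) k) / 2 :=
    Finset.sum_congr rfl fun k hk => (inf_update_ne h (Finset.ne_of_mem_erase hk)).symm
  rw [h1, ← Finset.sum_div, Finset.sum_add_distrib]
  ring

lemma TI_pair (h : (I → Bool) → ℝ) {i j : I} (hij : i ≠ j) :
    ((TI (fun x => h (Function.update (Function.update x j false) i false)) +
      TI (fun x => h (Function.update (Function.update x j true) i false))) / 2 +
      (TI (fun x => h (Function.update (Function.update x j false) i true)) +
      TI (fun x => h (Function.update (Function.update x j true) i true))) / 2) / 2 =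
      TI h - (inf h i + inf h j) := by
  have h1 := TI_update (fun x => h (Function.update x i false)) j
  have h2 := TI_update (fun x => h (Function.update x i true)) j
  have h3 := TI_update h i
  have h4 := inf_update_ne h (Ne.symm hij)
  rw [h1, h2]
  linarith

lemma var_le_one {h : (I → Bool) → ℝ} (hb : ∀ x, |h x| ≤ 1) :
    ex (fun x => h x ^ 2) - ex h ^ 2 ≤ 1 := by
  have h1 : ex (fun x => h x ^ 2) ≤ 1 := by
    have := ex_mono (f := fun x => h x ^ 2) (g := fun _ : I → Bool => (1 : ℝ))
      (fun x => (sq_le_one_iff_abs_le_one _).mpr (hb x))
    rwa [ex_const] at this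
  nlinarith [sq_nonneg (ex h)]

/-- **Simulation.** A class of bounded functions in which every function of variance more than `ε`
has a pair of variables of total influence at least `τ`, and which is closed under fixing this
pair, is approximated by decision trees. -/
theorem approx_of_pairs {P : ((I → Bool) → ℝ) → Prop} (hP1 : ∀ h, P h → ∀ x, |h x| ≤ 1)
    {ε τ : ℝ} (hε : 0 ≤ ε) (hτ : 0 < τ)
    (hP : ∀ h, P h → ε < ex (fun x => h x ^ 2) - ex h ^ 2 → ∃ i j, i ≠ j ∧
      τ ≤ inf h i + inf h j ∧
      ∀ a b, P (fun x => h (Function.update (Function.update x j b) i a))) :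
    ∀ (r : ℕ) (h : (I → Bool) → ℝ), P h → Approx (2 * r) (ε + TI h / ((r + 1) * τ)) h := by
  intro r
  induction r with
  | zero =>
    intro h hPh
    by_cases hv : ex (fun x => h x ^ 2) - ex h ^ 2 ≤ ε
    · refine approx_const (hP1 h hPh) (hv.trans ?_)
      have := TI_nonneg h
      have : 0 ≤ TI h / (((0 : ℕ) + 1) * τ) := by positivity
      linarith
    · obtain ⟨i, j, hij, hθ, -⟩ := hP h hPh (not_le.mp hv)
      refine approx_const (hP1 h hPh) ((var_le_one (hP1 h hPh)).trans ?_)
      have h1 : inf h i + inf h j ≤ TI h := by
        unfold TI
        rw [← Finset.sum_pair hij]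
        exact Finset.sum_le_sum_of_subset_of_nonneg (Finset.subset_univ _)
          fun k _ _ => inf_nonneg h k
      have h2 : 1 ≤ TI h / (((0 : ℕ) + 1) * τ) := by
        rw [one_le_div (by simpa using hτ)]
        simpa using hθ.trans h1
      linarith
  | succ r ih =>
    intro h hPh
    have hr : (0 : ℝ) < (r : ℝ) + 1 := by positivity
    by_cases hv : ex (fun x => h x ^ 2) - ex h ^ 2 ≤ ε
    · refine approx_mono (approx_const (hP1 h hPh) hv) (Nat.zero_le _) ?_
      have := TI_nonneg h
      have : 0 ≤ TI h / (((r + 1 : ℕ) + 1) * τ) := by positivity
      linarith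
    · obtain ⟨i, j, hij, hθ, hcl⟩ := hP h hPh (not_le.mp hv)
      by_cases hT : (((r + 1 : ℕ) : ℝ) + 1) * τ ≤ TI h
      · refine approx_mono (approx_const (ε := 1) (hP1 h hPh) (var_le_one (hP1 h hPh)))
          (Nat.zero_le _) ?_
        have h2 : 1 ≤ TI h / (((r + 1 : ℕ) + 1) * τ) := by
          rw [one_le_div (by positivity)]
          exact hT
        linarith
      · have hT' : TI h < (((r + 1 : ℕ) : ℝ) + 1) * τ := not_le.mp hT
        have hn := approx_node (f := h) i
          (approx_node (f := fun x => h (Function.update x i false)) j
            (ih _ (hcl false false)) (ih _ (hcl false true)))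
          (approx_node (f := fun x => h (Function.update x i true)) j
            (ih _ (hcl true false)) (ih _ (hcl true true)))
        refine approx_mono hn (by omega) ?_
        have hp := TI_pair h hij
        have e1 : ((ε + TI (fun x => h (Function.update (Function.update x j false) i false)) /
              ((r + 1) * τ) +
            (ε + TI (fun x => h (Function.update (Function.update x j true) i false)) /
              ((r + 1) * τ))) / 2 +
            (ε + TI (fun x => h (Function.update (Function.update x j false) i true)) /
              ((r + 1) * τ) +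
            (ε + TI (fun x => h (Function.update (Function.update x j true) i true)) /
              ((r + 1) * τ))) / 2) / 2 =
            ε + (TI h - (inf h i + inf h j)) / ((r + 1) * τ) := by
          rw [← hp]
          ring
        rw [e1]
        have e2 : (TI h - (inf h i + inf h j)) / ((r + 1) * τ) ≤
            TI h / (((r + 1 : ℕ) + 1) * τ) := by
          rw [div_le_div_iff₀ (by positivity) (by positivity)]
          push_cast at hT' ⊢
          have e3 : (TI h - (inf h i + inf h j)) ≤ TI h - τ := by linarith
          calc (TI h - (inf h i + inf h j)) * ((r + 1 + 1) * τ)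
              ≤ (TI h - τ) * ((r + 1 + 1) * τ) :=
                mul_le_mul_of_nonneg_right e3 (by positivity)
            _ ≤ TI h * ((r + 1) * τ) := by nlinarith
        linarith

end Pool.Agent.Lib_helper31.GPL
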