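import Pool.Agent.Lib_helper31.GPL.Tree
import Pool.Agent.Lib_helper31.GPL.Pot
import Pool.Agent.Lib_helper4.PluriG.Main
import Pool.Agent.Lib_helper84.PLH.S4W

/-! # Simulation of group pluriharmonic functions, and of trees with such leaves -/

set_option autoImplicit false
set_option linter.unusedSectionVars false

namespace Pool.Agent.Lib_helper31.GPL

open Finset Pool.Agent.Lib_helper4.PluriG

section fix

variable {n m : ℕ}

/-- The value of the letter of the pair `j` when its two bits are `a`, `b`. -/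
noncomputable def kap (a b s : Bool) : ℂ :=
  (Pool.Agent.Lib_helper14.AAQ.e a : ℂ) + (Pool.Agent.Lib_helper14.AAQ.e s : ℂ) *
    (Pool.Agent.Lib_helper14.AAQ.e b : ℂ) * Complex.I

/-- The coefficients after the two bits of the pair `j` are fixed. -/
noncomputable def fixc (g : Fin n → Fin m) (c : (Fin m → Bool) → Finset (Fin n) → ℂ) (j : Fin n)
    (a b : Bool) (u : Fin m → Bool) (T : Finset (Fin n)) : ℂ :=
  if j ∈ T then 0 else c u T + kap a b (u (g j)) * c u (insert j T)

lemma HH_fixc (g : Fin n → Fin m) (c : (Fin m → Bool) → Finset (Fin n) → ℂ) (j : Fin n)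
    (a b : Bool) (v : Fin n ⊕ Fin n → Bool) :
    HH g (fixc g c j a b) v =
      HH g c (Function.update (Function.update v (Sum.inr j) b) (Sum.inl j) a) := by
  set v' := Function.update (Function.update v (Sum.inr j) b) (Sum.inl j) a with hv'
  have hpt : ∀ s i, i ≠ j → pt s v' i = pt s v i := fun s i hi => by
    rw [hv', pt_update_inl hi, pt_update_inr hi]
  have hptj : ∀ s : Fin n → Bool, pt s v' j = kap a b (s j) := fun s => by
    unfold pt kap
    have h2 : v' (Sum.inl j) = a := by rw [hv', Function.update_self]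
    have h3 : v' (Sum.inr j) = b := by
      rw [hv', Function.update_of_ne (by simp), Function.update_self]
    rw [h2, h3]
  rw [HH_split g c j v', G0_congr g c hpt]
  simp_rw [A_congr g c hpt, hptj]
  unfold HH G0 A
  rw [← Finset.sum_add_distrib]
  refine Finset.sum_congr rfl fun u _ => ?_
  rw [sum_split j, Finset.mul_sum]
  have h0 : ∑ T ∈ (univ.erase j).powerset,
      fixc g c j a b u (insert j T) * ∏ i ∈ insert j T, pt (fun i => u (g i)) v i = 0 :=
    Finset.sum_eq_zero fun T _ => by simp [fixc]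
  rw [h0, add_zero, ← Finset.sum_add_distrib]
  refine Finset.sum_congr rfl fun T hT => ?_
  rw [fixc, if_neg (notMem_of hT)]
  ring

lemma fixc_supp {g : Fin n → Fin m} {c : (Fin m → Bool) → Finset (Fin n) → ℂ} {d k : ℕ}
    (hc : ∀ u S, c u S ≠ 0 → S.card ≤ d ∧ (S.image g).card ≤ k + 1) (j : Fin n)
    (a b : Bool) (u : Fin m → Bool) (T : Finset (Fin n)) (h : fixc g c j a b u T ≠ 0) :
    T.card ≤ d ∧ (T.image g).card ≤ k + 1 := by
  unfold fixc at h
  split_ifs at h with hj
  · exact absurd rfl h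
  · by_cases h1 : c u T = 0
    · by_cases h2 : c u (insert j T) = 0
      · rw [h1, h2] at h
        simp at h
      · obtain ⟨h3, h4⟩ := hc u _ h2
        exact ⟨(Finset.card_le_card (Finset.subset_insert j T)).trans h3,
          (Finset.card_le_card (Finset.image_subset_image (Finset.subset_insert j T))).trans h4⟩
    · exact hc u T h1

/-- The influences as sums of squares of Fourier coefficients. -/
lemma th_coef (g : Fin n → Fin m) (c : (Fin m → Bool) → Finset (Fin n) → ℂ) (J : Finset (Fin n)) :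
    ∑ j ∈ J, th g c j = ∑ k ∈ J.disjSum J,
      ∑ W ∈ (univ : Finset (Finset (Fin n ⊕ Fin n))).filter (fun W => k ∈ W),
        Pool.Agent.Lib_helper30.AA.coef (F g c) W ^ 2 := by
  have hc : ∀ k, ((2 : ℝ) ^ (2 * n))⁻¹ * ∑ v, Pool.Agent.Lib_helper4.Pluri.hd (F g c) k v ^ 2 =
      ∑ W ∈ (univ : Finset (Finset (Fin n ⊕ Fin n))).filter (fun W => k ∈ W),
        Pool.Agent.Lib_helper30.AA.coef (F g c) W ^ 2 := by
    intro k
    rw [← Pool.Agent.Lib_helper30.AA.influence_eq, Pool.Agent.Lib_helper4.Pluri.two_pow_card]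
    rfl
  rw [Finset.sum_disjSum, ← Finset.sum_add_distrib]
  refine Finset.sum_congr rfl fun j _ => ?_
  rw [← hc, ← hc, hd_sum]

/-- The sum of the influences is at most the degree. -/
lemma sum_th_univ {g : Fin n → Fin m} {c : (Fin m → Bool) → Finset (Fin n) → ℂ}
    (hf : ∀ v, |F g c v| ≤ 1) {d : ℕ} (hdeg : ∀ u S, c u S ≠ 0 → S.card ≤ d) :
    ∑ j, th g c j ≤ d := by
  have hdeg' : ∀ W, Pool.Agent.Lib_helper30.AA.coef (F g c) W ≠ 0 →
      (W ∩ (univ : Finset (Fin n)).disjSum univ).card ≤ d := fun W hW =>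
    card_le_of_coef_F (J := univ) (fun u S h => by simpa using hdeg u S h) hW
  rw [th_coef]
  simp_rw [Finset.sum_filter]
  rw [Finset.sum_comm]
  have h1 : ∀ W : Finset (Fin n ⊕ Fin n),
      ∑ k ∈ (univ : Finset (Fin n)).disjSum univ,
        (if k ∈ W then Pool.Agent.Lib_helper30.AA.coef (F g c) W ^ 2 else 0) ≤
        (d : ℝ) * Pool.Agent.Lib_helper30.AA.coef (F g c) W ^ 2 := by
    intro W
    rw [← Finset.sum_filter, Finset.sum_const, nsmul_eq_mul]
    by_cases h : Pool.Agent.Lib_helper30.AA.coef (F g c) W = 0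
    · rw [h]; simp
    · refine mul_le_mul_of_nonneg_right ?_ (sq_nonneg _)
      have h2 : ((univ : Finset (Fin n)).disjSum univ).filter (fun k => k ∈ W) =
          W ∩ (univ : Finset (Fin n)).disjSum univ := by
        ext k; simp
      rw [h2]
      exact_mod_cast hdeg' W h
  refine (Finset.sum_le_sum fun W _ => h1 W).trans ?_
  rw [← Finset.mul_sum, Pool.Agent.Lib_helper30.AA.parseval_sq]
  have h3 : ((2 : ℝ) ^ (Fintype.card (Fin n ⊕ Fin n)))⁻¹ * ∑ x, F g c x ^ 2 ≤ 1 := by
    rw [inv_mul_le_iff₀ (by positivity), mul_one]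
    refine (Finset.sum_le_sum fun x _ => (sq_le_one_iff_abs_le_one _).mpr (hf x)).trans
      (le_of_eq ?_)
    simp
  calc (d : ℝ) * (((2 : ℝ) ^ (Fintype.card (Fin n ⊕ Fin n)))⁻¹ * ∑ x, F g c x ^ 2)
      ≤ (d : ℝ) * 1 := mul_le_mul_of_nonneg_left h3 (Nat.cast_nonneg _)
    _ = d := mul_one _

end fix

variable {I : Type} [Fintype I] [DecidableEq I]

/-- The values of `x` at the variables `s`. -/
def pull {K : Type} (s : K → I) (x : I → Bool) : K → Bool := fun k => x (s k)

lemma pull_update {K : Type} [DecidableEq K] {s : K → I} (hs : Function.Injective s)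
    (x : I → Bool) (k : K) (b : Bool) :
    pull s (Function.update x (s k) b) = Function.update (pull s x) k b := by
  funext l
  unfold pull
  by_cases h : l = k
  · subst h; simp
  · rw [Function.update_of_ne h, Function.update_of_ne (fun h' => h (hs h'))]

lemma pull_surj {K : Type} {s : K → I} (hs : Function.Injective s) (v : K → Bool) :
    ∃ x, pull s x = v :=
  ⟨Function.extend s v (fun _ => false), by
    funext k
    unfold pull
    exact hs.extend_apply _ _ _⟩

/-- The influence of a variable in a function of some of the variables. -/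
lemma inf_pull {K : Type} [Fintype K] [DecidableEq K] {s : K → I} (hs : Function.Injective s)
    (φ : (K → Bool) → ℝ) (k : K) : inf (fun x => φ (pull s x)) (s k) = inf φ k := by
  unfold inf
  rw [← ex_comp hs (fun v => ((φ v - φ (Pool.Agent.Lib_helper8.QAA.flip k v)) / 2) ^ 2)]
  congr 1
  funext x
  have h1 : pull s (Pool.Agent.Lib_helper8.QAA.flip (s k) x) =
      Pool.Agent.Lib_helper8.QAA.flip k (pull s x) := by
    unfold Pool.Agent.Lib_helper8.QAA.flip
    rw [pull_update hs]
    rfl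
  show ((φ (pull s x) - φ (pull s (Pool.Agent.Lib_helper8.QAA.flip (s k) x))) / 2) ^ 2 = _
  rw [h1]
  rfl

lemma inf_pull_of_notMem {K : Type} [Fintype K] [DecidableEq K] {s : K → I}
    (φ : (K → Bool) → ℝ) (i : I) (hi : ∀ k, s k ≠ i) : inf (fun x => φ (pull s x)) i = 0 := by
  unfold inf
  have : (fun x : I → Bool => ((φ (pull s x) -
      φ (pull s (Pool.Agent.Lib_helper8.QAA.flip i x))) / 2) ^ 2) = fun _ => 0 := by
    funext x
    have h1 : pull s (Pool.Agent.Lib_helper8.QAA.flip i x) = pull s x := by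
      funext k
      unfold pull Pool.Agent.Lib_helper8.QAA.flip
      rw [Function.update_of_ne (hi k)]
    rw [h1]
    simp
  rw [this, Pool.Agent.Lib_helper8.QAA.ex_const]

lemma TI_pull {K : Type} [Fintype K] [DecidableEq K] {s : K → I} (hs : Function.Injective s)
    (φ : (K → Bool) → ℝ) : TI (fun x => φ (pull s x)) = TI φ := by
  unfold TI
  rw [← Finset.sum_subset (Finset.subset_univ ((univ : Finset K).map ⟨s, hs⟩)), Finset.sum_map]
  · exact Finset.sum_congr rfl fun k _ => inf_pull hs φ k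
  · intro i _ hi
    refine inf_pull_of_notMem φ i fun k hk => hi ?_
    rw [Finset.mem_map]
    exact ⟨k, Finset.mem_univ k, hk⟩

lemma GP_iff {d k : ℕ} {h : (I → Bool) → ℝ} (hh : GP d k h) :
    ∃ (n m : ℕ) (s : Fin n ⊕ Fin n → I) (g : Fin n → Fin m)
    (c : (Fin m → Bool) → Finset (Fin n) → ℂ), Function.Injective s ∧
    (∀ u S, c u S ≠ 0 → S.card ≤ d ∧ (S.image g).card ≤ k + 1) ∧
    h = fun x => F g c (pull s x) := by
  obtain ⟨n, m, s, g, c, hs, hc, hx⟩ := hh
  refine ⟨n, m, s, g, c, hs, hc, ?_⟩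
  funext x
  rw [hx]
  unfold F HH
  congr 1
  refine Finset.sum_congr rfl fun u _ => Finset.sum_congr rfl fun S _ => ?_
  congr 1
  refine Finset.prod_congr rfl fun i _ => ?_
  unfold pt Pool.Agent.Lib_helper14.AAQ.e pull
  push_cast
  rfl

lemma GP_of {d k : ℕ} {n m : ℕ} {s : Fin n ⊕ Fin n → I} {g : Fin n → Fin m}
    {c : (Fin m → Bool) → Finset (Fin n) → ℂ} (hs : Function.Injective s)
    (hc : ∀ u S, c u S ≠ 0 → S.card ≤ d ∧ (S.image g).card ≤ k + 1) :
    GP d k (fun x => F g c (pull s x)) := by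
  have key : ∀ x : I → Bool, F g c (pull s x) = (∑ u, ∑ S, c u S * ∏ i ∈ S,
      ((-1) ^ (x (s (Sum.inl i))).toNat +
      (-1) ^ (u (g i)).toNat * (-1) ^ (x (s (Sum.inr i))).toNat * Complex.I)).re := by
    intro x
    unfold F HH
    refine congrArg Complex.re (Finset.sum_congr rfl fun u _ => Finset.sum_congr rfl fun S _ => ?_)
    refine congrArg (fun z => c u S * z) (Finset.prod_congr rfl fun i _ => ?_)
    unfold pt Pool.Agent.Lib_helper14.AAQ.e pull
    push_cast
    rfl
  exact ⟨n, m, s, g, c, hs, hc, key⟩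

lemma inf_F {n m : ℕ} (g : Fin n → Fin m) (c : (Fin m → Bool) → Finset (Fin n) → ℂ)
    (k : Fin n ⊕ Fin n) : inf (F g c) k = ((2 : ℝ) ^ (2 * n))⁻¹ *
      ∑ v, ((F g c v - F g c (Function.update v k (!v k))) / 2) ^ 2 := by
  unfold inf Pool.Agent.Lib_helper8.QAA.ex
  rw [Pool.Agent.Lib_helper4.Pluri.two_pow_card]
  rfl

lemma inf_F_add {n m : ℕ} (g : Fin n → Fin m) (c : (Fin m → Bool) → Finset (Fin n) → ℂ)
    (j : Fin n) : inf (F g c) (Sum.inl j) + inf (F g c) (Sum.inr j) = th g c j := by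
  rw [inf_F, inf_F, ← hd_sum]
  rfl

/-- The total influence is at most the degree. -/
lemma TI_le {d k : ℕ} {h : (I → Bool) → ℝ} (hh : GP d k h) (hb : ∀ x, |h x| ≤ 1) :
    TI h ≤ d := by
  obtain ⟨n, m, s, g, c, hs, hc, rfl⟩ := GP_iff hh
  have hF : ∀ v, |F g c v| ≤ 1 := fun v => by
    obtain ⟨x, hx⟩ := pull_surj hs v
    rw [← hx]
    exact hb x
  rw [TI_pull hs]
  have h1 : TI (F g c) = ∑ j, th g c j := by
    unfold TI
    rw [Fintype.sum_sum_type, ← Finset.sum_add_distrib]
    exact Finset.sum_congr rfl fun j _ => inf_F_add g c j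
  rw [h1]
  exact sum_th_univ hF fun u S h => (hc u S h).1

/-- **An influential pair.** -/
lemma GP_pair {d k : ℕ} {ε : ℝ} (hε : 0 ≤ ε) {h : (I → Bool) → ℝ} (hh : GP d k h)
    (hb : ∀ x, |h x| ≤ 1)
    (hv : ε < Pool.Agent.Lib_helper8.QAA.ex (fun x => h x ^ 2) -
      Pool.Agent.Lib_helper8.QAA.ex h ^ 2) :
    ∃ i j, i ≠ j ∧ (ε / (2 * 2 ^ (20 * k) * (d : ℝ) ^ 2)) ^ 20 ≤ inf h i + inf h j ∧
      ∀ a b, GP d k (fun x => h (Function.update (Function.update x j b) i a)) := by
  obtain ⟨n, m, s, g, c, hs, hc, rfl⟩ := GP_iff hh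
  have hF : ∀ v, |F g c v| ≤ 1 := fun v => by
    obtain ⟨x, hx⟩ := pull_surj hs v
    rw [← hx]
    exact hb x
  have e1 : Pool.Agent.Lib_helper8.QAA.ex (fun x : I → Bool => F g c (pull s x) ^ 2) =
      Pool.Agent.Lib_helper8.QAA.ex (fun v => F g c v ^ 2) := ex_comp hs (fun v => F g c v ^ 2)
  have e2 : Pool.Agent.Lib_helper8.QAA.ex (fun x : I → Bool => F g c (pull s x)) =
      Pool.Agent.Lib_helper8.QAA.ex (F g c) := ex_comp hs (F g c)
  rw [e1, e2] at hv
  -- the case of no pair
  rcases Nat.eq_zero_or_pos n with hn | hn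
  · subst hn
    exfalso
    have h1 : ∀ v : Fin 0 ⊕ Fin 0 → Bool, F g c v = F g c (fun _ => false) := fun v => by
      congr 1
      funext k
      rcases k with k | k <;> exact k.elim0
    have h2 : F g c = fun _ => F g c (fun _ => false) := funext h1
    rw [h2, Pool.Agent.Lib_helper8.QAA.ex_const, Pool.Agent.Lib_helper8.QAA.ex_const] at hv
    linarith
  have : NeZero n := ⟨hn.ne'⟩
  obtain ⟨-, ⟨j, -, hj⟩, h3⟩ := Pool.Agent.Lib_helper4.PluriG.fin
    (fun _ _ g k i0 c h1 h2 hb => Pool.Agent.PLH.s4g g k i0 c h1 h2 hb)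
    n m g k c (F g c)
    (fun v => by
      unfold F HH
      congr 1
      refine Finset.sum_congr rfl fun u _ => Finset.sum_congr rfl fun S _ => ?_
      congr 1
      refine Finset.prod_congr rfl fun i _ => ?_
      unfold pt Pool.Agent.Lib_helper14.AAQ.e
      push_cast
      rfl)
    hF univ ⟨0, Finset.mem_univ _⟩ d (fun u S h => by simpa using (hc u S h).1)
    (fun u S h _ => (hc u S h).2)
    _ (fun k => rfl) _ rfl
  have h4 := h3 rfl
  refine ⟨s (Sum.inl j), s (Sum.inr j), fun h => by simpa using hs h, ?_, fun a b => ?_⟩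
  · rw [inf_pull hs (F g c), inf_pull hs (F g c), inf_F, inf_F]
    refine le_trans ?_ hj
    have h5 : ε ≤ ((2 : ℝ) ^ (2 * n))⁻¹ * ∑ v, F g c v ^ 2 -
        (((2 : ℝ) ^ (2 * n))⁻¹ * ∑ v, F g c v) ^ 2 := by
      have h6 := hv.le
      unfold Pool.Agent.Lib_helper8.QAA.ex at h6
      rw [Pool.Agent.Lib_helper4.Pluri.two_pow_card] at h6
      exact h6
    rw [h4]
    exact pow_le_pow_left₀ (by positivity)
      (div_le_div_of_nonneg_right h5 (by positivity)) 20
  · have h5 : (fun x : I → Bool => F g c (pull s (Function.update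
        (Function.update x (s (Sum.inr j)) b) (s (Sum.inl j)) a))) =
        fun x => F g (fixc g c j a b) (pull s x) := by
      funext x
      rw [pull_update hs, pull_update hs]
      unfold F
      rw [HH_fixc]
    rw [h5]
    exact GP_of hs (fixc_supp hc j a b)

/-- **Simulation** of trees with group pluriharmonic leaves. -/
theorem sim {d k D : ℕ} {h : (I → Bool) → ℝ} (ht : Tree (GP d k) D h) (hb : ∀ x, |h x| ≤ 1)
    {e : ℝ} (he : 0 < e) (hd : 1 ≤ d) (r : ℕ) :
    Pool.Agent.Lib_helper8.QAA.Approx (D + 2 * r)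
      (e + d / ((r + 1) * (e / (2 * 2 ^ (20 * k) * (d : ℝ) ^ 2)) ^ 20)) h := by
  have hd' : (0 : ℝ) < d := by exact_mod_cast hd
  have hτ : 0 < (e / (2 * 2 ^ (20 * k) * (d : ℝ) ^ 2)) ^ 20 := by positivity
  induction ht with
  | leaf D h hP =>
    have h1 := approx_of_pairs (P := fun h : (I → Bool) → ℝ => GP d k h ∧ ∀ x, |h x| ≤ 1)
      (fun h hh => hh.2) he.le hτ (fun h hh hv => by
        obtain ⟨i, j, hij, h2, h3⟩ := GP_pair he.le hh.1 hh.2 hv
        exact ⟨i, j, hij, h2, fun a b => ⟨h3 a b, fun x => hh.2 _⟩⟩) r h ⟨hP, hb⟩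
    refine Pool.Agent.Lib_helper8.QAA.approx_mono h1 (Nat.le_add_left _ _) ?_
    have h2 := TI_le hP hb
    gcongr
  | query D h i _ ih =>
    have h1 := Pool.Agent.Lib_helper8.QAA.approx_node (f := h) i
      (ih false fun x => hb _) (ih true fun x => hb _)
    refine Pool.Agent.Lib_helper8.QAA.approx_mono h1 (by omega) (le_of_eq (by ring))

end Pool.Agent.Lib_helper31.GPL
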