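import Mathlib

/-! # Decision trees with functions at the leaves; group pluriharmonic functions -/

set_option autoImplicit false

namespace Pool.Agent.Lib_helper31.GPL

/-- `Tree P D h`: the function `h` is computed by a decision tree of depth at most `D` whose leaves
carry functions with the property `P`. -/
inductive Tree {I : Type} [DecidableEq I] (P : ((I → Bool) → ℝ) → Prop) :
    ℕ → ((I → Bool) → ℝ) → Prop
  | leaf (D : ℕ) (h : (I → Bool) → ℝ) (hP : P h) : Tree P D h
  | query (D : ℕ) (h : (I → Bool) → ℝ) (i : I)
      (hb : ∀ b : Bool, Tree P D (fun x => h (Function.update x i b))) : Tree P (D + 1) h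

/-- `GP d k h`: the function `h` has degree at most `d` and is pluriharmonic in each of several
groups of pairs of variables, every monomial meeting at most `k + 1` groups. The pair `j` consists
of the variables `s (inl j)` and `s (inr j)` and belongs to the group `g j`. -/
def GP {I : Type} (d k : ℕ) (h : (I → Bool) → ℝ) : Prop :=
  ∃ (n m : ℕ) (s : Fin n ⊕ Fin n → I) (g : Fin n → Fin m)
    (c : (Fin m → Bool) → Finset (Fin n) → ℂ), Function.Injective s ∧
    (∀ u S, c u S ≠ 0 → S.card ≤ d ∧ (S.image g).card ≤ k + 1) ∧
    ∀ x, h x = (∑ u, ∑ S, c u S * ∏ i ∈ S, ((-1) ^ (x (s (Sum.inl i))).toNat +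
      (-1) ^ (u (g i)).toNat * (-1) ^ (x (s (Sum.inr i))).toNat * Complex.I)).re

end Pool.Agent.Lib_helper31.GPL
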